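import Pool.Agent.X133.Sq.Bridge

/-!
# Additivity of the squeezing measure `G` (MP_18219f_mp)

Let `A` be a pure covariance matrix below `γ_A ⊕ γ_B` and `U = 1 ⊕ (-1)`. The geometric mean `M` of
`A` and `U A U` is again pure, commutes with `U` (so it is block diagonal), lies below
`(A + U A U) / 2 ≤ γ_A ⊕ γ_B`, and the product of its `n` largest eigenvalues is at most the one of
`A`.
-/

set_option autoImplicit false

open Pool.Agent.X133.Sq

namespace Pool.Agent.Results.MP_18219f_mp.Additivity

/-- The set whose infimum is `G(γ)` is nonempty and bounded below for every covariance matrix `γ`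
(so `G(γ)` is a true infimum), direct sums of covariance matrices are covariance matrices, and
`G(γ_A ⊕ γ_B) = G(γ_A) + G(γ_B)` for all covariance matrices `γ_A`, `γ_B`. -/
theorem result :
    (∀ (n : ℕ) (γ : Matrix (Quad n) (Quad n) ℝ), IsCovariance γ →
      (costs γ).Nonempty ∧ BddBelow (costs γ)) ∧
    ∀ (n₁ n₂ : ℕ) (γA : Matrix (Quad n₁) (Quad n₁) ℝ) (γB : Matrix (Quad n₂) (Quad n₂) ℝ),
      IsCovariance γA → IsCovariance γB →
        directSum (sigma n₁) (sigma n₂) = sigma (n₁ + n₂) ∧
        IsCovariance (directSum γA γB) ∧ G (directSum γA γB) = G γA + G γB :=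
  ⟨fun _ γ h => ⟨nonempty_costs h, bddBelow_costs γ⟩,
    fun n₁ n₂ _ _ hA hB => ⟨directSum_sigma n₁ n₂, isCovariance_directSum hA hB,
      G_directSum hA hB⟩⟩

end Pool.Agent.Results.MP_18219f_mp.Additivity
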